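import Mathlib

/-!
# Redshift for the K-theory of algebras over connective Morava E-theory: definitions

The homotopy categories of spectra and of `e_n`-modules are pretriangulated categories `Sp` and `Mod`; `Alg` is the
category of commutative `e_n`-algebras. A finite `p`-local spectrum `F` is described by its Spanier-Whitehead dual
`D = DF`, again a finite `p`-local spectrum: `F_j X = π_j (F ∧ X)` is the group of the maps `D⟦j⟧ ⟶ X`, and a self-map
`v : Σ^d F ⟶ F` is the same as its dual `w : D⟦d⟧ ⟶ D`; the map `v_* : F_(j-d) X ⟶ F_j X` is the composition with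
`act w j : D⟦j⟧ ⟶ D⟦j - d⟧`.
-/

namespace Pool.Agent.H92.Redshift

open CategoryTheory CategoryTheory.Limits CategoryTheory.Pretriangulated

/-- A pretriangulated category (in the sense of Mathlib). -/
structure TriCat where
  Obj : Type 1
  [cat : Category.{0} Obj]
  [zero : HasZeroObject Obj]
  [shift : HasShift Obj ℤ]
  [pre : Preadditive Obj]
  [add : ∀ n : ℤ, (shiftFunctor Obj n).Additive]
  [tri : Pretriangulated Obj]

instance : CoeSort TriCat (Type 1) := ⟨TriCat.Obj⟩

attribute [instance] TriCat.cat TriCat.zero TriCat.shift TriCat.pre TriCat.add TriCat.tri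

section Triangulated

variable {C : TriCat}

/-- The thick subcategory generated by `E`: the smallest class of objects which contains `E` and is closed under
shifts, extensions and retracts. For `E` the unit these are the retracts of the finite cell objects (the semi-finite
modules), for `E` the `p`-local sphere the finite `p`-local spectra. -/
inductive Thick (E : C.Obj) : C.Obj → Prop
  | unit : Thick E E
  | shift {X : C.Obj} (i : ℤ) : Thick E X → Thick E (X⟦i⟧)
  | ext {X Y Z : C.Obj} (f : X ⟶ Y) (g : Y ⟶ Z) (h : Z ⟶ X⟦(1 : ℤ)⟧) :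
      Triangle.mk f g h ∈ distTriang C.Obj → Thick E X → Thick E Z → Thick E Y
  | retract {X Y : C.Obj} : Retract X Y → Thick E Y → Thick E X

/-- The map `D⟦j⟧ ⟶ D⟦j - d⟧` which is induced by `w : D⟦d⟧ ⟶ D`. -/
noncomputable def act {D : C.Obj} {d : ℤ} (w : D⟦d⟧ ⟶ D) (j : ℤ) : D⟦j⟧ ⟶ D⟦j - d⟧ :=
  (shiftFunctorAdd' C.Obj d (j - d) j (by ring)).hom.app D ≫ w⟦j - d⟧'

/-- Multiplication by `v`, the map `v_* : F_(j-d) X ⟶ F_j X`, for the dual `w` of `v`. -/
noncomputable def mulV {D : C.Obj} {d : ℤ} (w : D⟦d⟧ ⟶ D) (j : ℤ) (X : C.Obj) (f : D⟦j - d⟧ ⟶ X) : D⟦j⟧ ⟶ X :=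
  act w j ≫ f

/-- `deg d j N = j - N d`. -/
def deg (d j : ℤ) : ℕ → ℤ
  | 0 => j
  | N + 1 => deg d j N - d

/-- The map `D⟦j⟧ ⟶ D⟦j - N d⟧` which is the dual of the power `v ^ N`. -/
noncomputable def actPow {D : C.Obj} {d : ℤ} (w : D⟦d⟧ ⟶ D) (j : ℤ) : ∀ N : ℕ, D⟦j⟧ ⟶ D⟦deg d j N⟧
  | 0 => 𝟙 _
  | N + 1 => actPow w j N ≫ act w (deg d j N)

/-- `X` is `c`-connective: `π_j X = 0` for `j < c`, where `S` is the sphere. -/
def Conn (S : C.Obj) (c : ℤ) (X : C.Obj) : Prop := ∀ j : ℤ, j < c → ∀ f : S⟦j⟧ ⟶ X, f = 0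

end Triangulated

/-- The objects which occur in the question. -/
structure Theory where
  /-- the homotopy category of spectra -/
  Sp : TriCat
  [prod : HasProducts.{0} Sp.Obj]
  /-- the homotopy category of `e_n`-modules -/
  Mod : TriCat
  /-- the homotopy category of commutative `e_n`-algebras -/
  Alg : Type 1
  [catAlg : Category.{0} Alg]
  /-- the prime `p` -/
  p : ℕ
  /-- the height `n` -/
  n : ℕ
  /-- the `p`-local sphere -/
  S : Sp.Obj
  /-- the Morava K-theories `K(m)`, with `K(0) = Hℚ` -/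
  morava : ℕ → Sp.Obj
  /-- the `p`-completion of spectra -/
  compl : Sp.Obj ⥤ Sp.Obj
  /-- the maps of the spectra to their `p`-completions -/
  toCompl : 𝟭 Sp.Obj ⟶ compl
  /-- the finite localization `L^f_(n+1)` -/
  loc : Sp.Obj ⥤ Sp.Obj
  /-- the maps of the spectra to their localizations -/
  toLoc : 𝟭 Sp.Obj ⟶ loc
  /-- the connective cover `e_n` of Morava E-theory, as a commutative `e_n`-algebra -/
  e : Alg
  /-- the module of an algebra -/
  under : Alg ⥤ Mod.Obj
  /-- the ring `π_0` -/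
  pi0 : Alg ⥤ CommRingCat.{0}
  /-- `galois M`: `M` is a Galois extension of `E_n[1/p]` with a finite group -/
  galois : Alg → Prop
  /-- algebraic K-theory -/
  K : Alg ⥤ Sp.Obj
  /-- topological Hochschild homology (without the action of the circle) -/
  THH : Alg → Sp.Obj
  /-- `sq i A` is the trivial square-zero extension `A ⊕ Σ ^ i A` of `A`; for `i = 0` it is the algebra `A[ε]` of the
  dual numbers -/
  sq : ℕ → Alg → Alg

attribute [instance] Theory.prod Theory.catAlg

namespace Theory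

variable (T : Theory)

/-- `w` is the dual of a `v_(n+1)` self-map `v : Σ^d F ⟶ F` of a finite `p`-local spectrum `F` with dual `D`. As
`F_j X` is the group of the maps `D⟦j⟧ ⟶ X`, the group `K(m)_j (F)` is that of the maps `D⟦j⟧ ⟶ K(m)`. -/
structure IsVSelf (D : T.Sp.Obj) (d : ℤ) (w : D⟦d⟧ ⟶ D) : Prop where
  finite : Thick T.S D
  iso : ∀ j : ℤ, Function.Bijective (mulV w j (T.morava (T.n + 1)))
  nilpotent : ∀ m : ℕ, m ≠ T.n + 1 →
    ∃ N : ℕ, ∀ (j : ℤ) (f : D⟦deg d j N⟧ ⟶ T.morava m), actPow w j N ≫ f = 0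

/-- The algebras `B` of the question: connected, semi-finite, with a map to a Galois extension of `E_n[1/p]`. -/
structure Allowed (B : T.Alg) : Prop where
  nontrivial : Nontrivial (T.pi0.obj B)
  connected : ∀ x : T.pi0.obj B, x * x = x → x = 0 ∨ x = 1
  semifinite : Thick (T.under.obj T.e) (T.under.obj B)
  map : ∃ M : T.Alg, T.galois M ∧ Nonempty (B ⟶ M)

/-- The first assertion of the question for `B` and `(F, v)`. -/
def First (B : T.Alg) (D : T.Sp.Obj) (d : ℤ) (w : D⟦d⟧ ⟶ D) : Prop :=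
  ∃ J : ℤ, ∀ j : ℤ, J ≤ j → Function.Bijective (mulV w j (T.K.obj B))

/-- The second assertion of the question for `B`: the map of the `p`-completions of `K(B)` and of `L^f_(n+1) K(B)` is an
isomorphism on `π_j` for all large `j`. -/
def Second (B : T.Alg) : Prop :=
  ∃ J : ℤ, ∀ j : ℤ, J ≤ j → Function.Bijective
    (fun f : T.S⟦j⟧ ⟶ T.compl.obj (T.K.obj B) => f ≫ T.compl.map (T.toLoc.app (T.K.obj B)))

/-- The question. -/
def Q1 : Prop := ∀ B : T.Alg, T.Allowed B → ∀ (D : T.Sp.Obj) (d : ℤ) (w : D⟦d⟧ ⟶ D), T.IsVSelf D d w →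
  T.First B D d w ∧ T.Second B

/-- `π_j A = 0` for `j < 0`. -/
def Connective (A : T.Alg) : Prop := Conn (T.under.obj T.e) 0 (T.under.obj A)

/-- The prime `p` is not a unit in `π_0 A`. -/
def NonUnit (A : T.Alg) : Prop := ¬ IsUnit ((T.p : ℕ) : T.pi0.obj A)

/-- Elementary properties of the trivial square-zero extension `sq i A = A ⊕ Σ ^ i A` of a connective algebra. -/
structure SqZero (i : ℕ) (A : T.Alg) where
  inc : A ⟶ T.sq i A
  aug : T.sq i A ⟶ A
  inc_aug : inc ≫ aug = 𝟙 A
  under : T.under.obj (T.sq i A) ≅ T.under.obj A ⊞ (T.under.obj A)⟦(i : ℤ)⟧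
  pi0_zero : i = 0 → Nonempty (T.pi0.obj (T.sq i A) ≅ CommRingCat.of (DualNumber (T.pi0.obj A)))
  pi0_pos : 0 < i → Nonempty (T.pi0.obj (T.sq i A) ≅ T.pi0.obj A)

/-- The positive integers which are not divisible by `p`. Every positive integer is `a p ^ k` for exactly one such `a`
and one `k`. -/
abbrev Idx (p : ℕ) : Type := {a : ℕ // 0 < a ∧ ¬ p ∣ a}

/-- The parts of positive weight of `TC^-(B)` and `TP(B)` for the trivial square-zero extension `B = A ⊕ Σ ^ i A` of a
connective algebra. The part of weight `m ≥ 1` of `THH(B)` is `X(m) = THH(A) ∧ (S^1_+ ∧_(C_m) S^V)`, `V` the representation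
`ρ_m - 1 + i ρ_m` of the cyclic group `C_m`. All spectra are `p`-completed, and `m = a p ^ k`. -/
structure Weights (i : ℕ) (A : T.Alg) where
  /-- the homotopy fixed points of `X(m)` -/
  N : Idx T.p → ℕ → T.Sp.Obj
  /-- the Tate construction of `X(m)` -/
  P : Idx T.p → ℕ → T.Sp.Obj
  /-- the suspension of the homotopy orbits of `X(m)` -/
  O : Idx T.p → ℕ → T.Sp.Obj
  /-- the norm -/
  norm : ∀ a k, O a k ⟶ N a k
  /-- the canonical map -/
  can : ∀ a k, N a k ⟶ P a k
  bd : ∀ a k, P a k ⟶ (O a k)⟦(1 : ℤ)⟧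
  /-- the Frobenius -/
  frob : ∀ a k, N a k ⟶ P a (k + 1)

/-- The properties of the parts of positive weight. -/
structure WeightFacts {i : ℕ} {A : T.Alg} (W : T.Weights i A) : Prop where
  triangle : ∀ a k, Triangle.mk (W.norm a k) (W.can a k) (W.bd a k) ∈ distTriang T.Sp.Obj
  /-- `X(m)` is `(m - 1 + i m)`-connective -/
  conn : ∀ a k, Conn T.S ((a.1 : ℤ) * (T.p : ℤ) ^ k * (i + 1)) (W.O a k)
  /-- the Tate construction of an induced action of a group of order prime to `p` -/
  tate : ∀ a, IsZero (W.P a 0)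
  /-- homotopy fixed points of a group of odd order prime to `p` -/
  first : ∀ a, Odd a.1 → Nonempty (W.N a 0 ≅ (T.compl.obj (T.THH A))⟦((a.1 : ℤ) * (i + 1))⟧)

/-- The product of all homotopy fixed points. -/
noncomputable def Weights.prodN {T : Theory} {i : ℕ} {A : T.Alg} (W : T.Weights i A) : T.Sp.Obj :=
  ∏ᶜ (fun m : Idx T.p × ℕ => W.N m.1 m.2)

/-- The product of all Tate constructions. -/
noncomputable def Weights.prodP {T : Theory} {i : ℕ} {A : T.Alg} (W : T.Weights i A) : T.Sp.Obj :=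
  ∏ᶜ (fun m : Idx T.p × ℕ => W.P m.1 m.2)

/-- The projections. -/
noncomputable def Weights.πN {T : Theory} {i : ℕ} {A : T.Alg} (W : T.Weights i A)
    (a : Idx T.p) (k : ℕ) : W.prodN ⟶ W.N a k :=
  Pi.π (fun m : Idx T.p × ℕ => W.N m.1 m.2) (a, k)

/-- The projections. -/
noncomputable def Weights.πP {T : Theory} {i : ℕ} {A : T.Alg} (W : T.Weights i A)
    (a : Idx T.p) (k : ℕ) : W.prodP ⟶ W.P a k :=
  Pi.π (fun m : Idx T.p × ℕ => W.P m.1 m.2) (a, k)

/-- `diff` is the difference of the Frobenius and of the canonical map. -/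
def Weights.IsDiff {T : Theory} {i : ℕ} {A : T.Alg} (W : T.Weights i A)
    (diff : W.prodN ⟶ W.prodP) : Prop :=
  ∀ (a : Idx T.p) (k : ℕ), diff ≫ W.πP a (k + 1) = W.πN a k ≫ W.frob a k - W.πN a (k + 1) ≫ W.can a (k + 1)

/-- The `p`-completed relative K-theory `R` of the trivial square-zero extension `B = A ⊕ Σ ^ i A ⟶ A` of a connective
algebra: `K` and `TC` have the same relative terms (Dundas, Goodwillie, McCarthy), and `TC(B)` is the fibre of the
difference of the Frobenius and of the canonical map (Nikolaus, Scholze). -/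
structure RelTC {i : ℕ} {A : T.Alg} (aug : T.sq i A ⟶ A) (W : T.Weights i A) where
  R : T.Sp.Obj
  toK : R ⟶ T.compl.obj (T.K.obj (T.sq i A))
  bdK : T.compl.obj (T.K.obj A) ⟶ R⟦(1 : ℤ)⟧
  kTriangle : Triangle.mk toK (T.compl.map (T.K.map aug)) bdK ∈ distTriang T.Sp.Obj
  q : R ⟶ W.prodN
  diff : W.prodN ⟶ W.prodP
  isDiff : W.IsDiff diff
  bdTC : W.prodP ⟶ R⟦(1 : ℤ)⟧
  tcTriangle : Triangle.mk q diff bdTC ∈ distTriang T.Sp.Obj

/-- `D` is the dual of a nonzero finite `p`-local spectrum on which a power of `p` is zero. -/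
structure Torsion (D : T.Sp.Obj) : Prop where
  finite : Thick T.S D
  ne : ¬ IsZero D
  pow : ∃ N : ℕ, T.p ^ N • 𝟙 D = 0

/-- The dual `w` of a self-map of `F` is not surjective on `F_j K(A ⊕ Σ ^ i A)` for `j = t + a (i + 1)`, for all odd `a ≥ a₀`
which are prime to `p`. -/
def Gaps (A : T.Alg) (i : ℕ) (t a₀ : ℤ) {D : T.Sp.Obj} {d : ℤ} (w : D⟦d⟧ ⟶ D) : Prop :=
  ∀ a : ℕ, a₀ ≤ a → Odd a → ¬ T.p ∣ a →
    ¬ Function.Surjective (mulV w (t + a * (i + 1)) (T.K.obj (T.sq i A)))

/-- The two assertions of the question fail for `B`, the first one for all `F ≠ 0` of `p`-power torsion and all self-maps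
of `F` of positive degree. -/
structure Fails (B : T.Alg) : Prop where
  first : ∀ (D : T.Sp.Obj) (d : ℤ) (w : D⟦d⟧ ⟶ D), T.Torsion D → 0 < d → ¬ T.First B D d w
  second : ¬ T.Second B

/-- The multiplication by `p` is invertible on the cofibre of the `p`-completion of `X`. -/
def Completes (X : T.Sp.Obj) : Prop :=
  ∃ (Y : T.Sp.Obj) (g : T.compl.obj X ⟶ Y) (h : Y ⟶ X⟦(1 : ℤ)⟧),
    Triangle.mk (T.toCompl.app X) g h ∈ distTriang T.Sp.Obj ∧ IsIso (T.p • 𝟙 Y)

/-- The facts about `e_n` and its connective algebras. -/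
structure AlgFacts : Prop where
  /-- `e_n` is the initial commutative `e_n`-algebra -/
  initial : Nonempty (IsInitial T.e)
  /-- `π_0 e_n` is a power series ring over the Witt vectors of a field of characteristic `p` -/
  isLocal : IsLocalRing (T.pi0.obj T.e)
  nonUnit : T.NonUnit T.e
  connective : T.Connective T.e
  /-- for example `E_n[1/p]` itself, with the trivial group -/
  galois : ∃ M : T.Alg, T.galois M
  sqZero : ∀ (i : ℕ) (A : T.Alg), T.Connective A → ∃ (Z : T.SqZero i A) (W : T.Weights i A),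
    T.WeightFacts W ∧ Nonempty (T.RelTC Z.aug W)
  thh_connective : ∀ A : T.Alg, T.Connective A → Conn T.S 0 (T.compl.obj (T.THH A))
  /-- if `F` is a finite `p`-local spectrum and `F ∧ THH(A) = 0`, then the homology of `F` with coefficients in the residue
  fields of characteristic `p` of `π_0 A` vanishes, so `F = 0` -/
  thh_detects : ∀ (A : T.Alg) (D : T.Sp.Obj), T.Connective A → T.NonUnit A → Thick T.S D →
    ¬ IsZero D → ∃ (j : ℤ) (f : D⟦j⟧ ⟶ T.compl.obj (T.THH A)), f ≠ 0

/-- The published facts which are used. -/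
structure Facts : Prop extends T.AlgFacts where
  prime : T.p.Prime
  one_le : 1 ≤ T.n
  completion : ∀ X : T.Sp.Obj, T.Completes X
  /-- `F_* L^f_(n+1) X` is `F_* X[1/v]` -/
  loc_periodic : ∀ (D : T.Sp.Obj) (d : ℤ) (w : D⟦d⟧ ⟶ D), T.IsVSelf D d w → ∀ (X : T.Sp.Obj) (j : ℤ),
    Function.Bijective (mulV w j (T.loc.obj X))
  /-- the periodicity theorem of Hopkins and Smith -/
  periodicity : ∃ (D : T.Sp.Obj) (d : ℤ) (w : D⟦d⟧ ⟶ D), T.IsVSelf D d w ∧ 0 < d ∧ T.Torsion D

end Theory

end Pool.Agent.H92.Redshift
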