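import Pool.Agent.H92.Redshift.Main

namespace Pool.Agent.H92.Redshift

open CategoryTheory CategoryTheory.Limits CategoryTheory.Pretriangulated

set_option linter.unusedSectionVars false

namespace Theory

variable {T : Theory}

/-- The second assertion implies the first one. -/
theorem first_of_second (hT : T.Facts) {B : T.Alg} (h : T.Second B) {D : T.Sp.Obj} {d : ℤ} {w : D⟦d⟧ ⟶ D}
    (hw : T.IsVSelf D d w) {N : ℕ} (hD : T.p ^ N • 𝟙 D = 0) : T.First B D d w := by
  obtain ⟨J, hJ⟩ := h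
  obtain ⟨J', hJ'⟩ := hw.finite.bijective _ J hJ
  have hc : ∀ (X : T.Sp.Obj) (j : ℤ), Function.Bijective (fun f : D⟦j⟧ ⟶ X => f ≫ T.toCompl.app X) := by
    intro X j
    obtain ⟨Y, g, δ, hTr, hIso⟩ := hT.completion X
    exact bijective_of_cofibre hTr j (hom_zero_of_torsion (Y := Y) hD j)
      (hom_zero_of_torsion (Y := Y) hD (j + 1))
  set X := T.K.obj B with hX
  have hη : ∀ j : ℤ, J' ≤ j → Function.Bijective (fun f : D⟦j⟧ ⟶ X => f ≫ T.toLoc.app X) := by
    intro j hj
    have h1 : (fun f : D⟦j⟧ ⟶ T.loc.obj X => f ≫ T.toCompl.app (T.loc.obj X)) ∘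
        (fun f : D⟦j⟧ ⟶ X => f ≫ T.toLoc.app X) =
        (fun f : D⟦j⟧ ⟶ T.compl.obj X => f ≫ T.compl.map (T.toLoc.app X)) ∘
        (fun f : D⟦j⟧ ⟶ X => f ≫ T.toCompl.app X) := by
      funext f
      have h0 : T.toLoc.app X ≫ T.toCompl.app (T.loc.obj X) =
          T.toCompl.app X ≫ T.compl.map (T.toLoc.app X) := T.toCompl.naturality (T.toLoc.app X)
      calc (f ≫ T.toLoc.app X) ≫ T.toCompl.app (T.loc.obj X)
          = f ≫ (T.toLoc.app X ≫ T.toCompl.app (T.loc.obj X)) := Category.assoc _ _ _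
        _ = f ≫ (T.toCompl.app X ≫ T.compl.map (T.toLoc.app X)) := by rw [h0]
        _ = (f ≫ T.toCompl.app X) ≫ T.compl.map (T.toLoc.app X) := (Category.assoc _ _ _).symm
    have h2 := (hJ' j hj).comp (hc X j)
    rw [← h1] at h2
    exact (Function.Bijective.of_comp_iff' (hc (T.loc.obj X) j) _).1 h2
  refine ⟨max J' (J' + d), fun j hj => ?_⟩
  have hj1 : J' ≤ j := le_trans (le_max_left _ _) hj
  have hj2 : J' ≤ j - d := by have := le_trans (le_max_right _ _) hj; linarith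
  have h3 : (fun f : D⟦j⟧ ⟶ X => f ≫ T.toLoc.app X) ∘ mulV w j X =
      mulV w j (T.loc.obj X) ∘ (fun f : D⟦j - d⟧ ⟶ X => f ≫ T.toLoc.app X) := by
    funext f
    exact Category.assoc _ _ _
  have h4 := (hT.loc_periodic D d w hw X j).comp (hη (j - d) hj2)
  rw [← h3] at h4
  exact (Function.Bijective.of_comp_iff' (hη j hj1) _).1 h4

lemma idem_dual {R : Type*} [CommRing R] (h : ∀ x : R, x * x = x → x = 0 ∨ x = 1) (x : DualNumber R)
    (hx : x * x = x) : x = 0 ∨ x = 1 := by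
  have h1 : x.fst * x.fst = x.fst := by
    have := congrArg TrivSqZeroExt.fst hx
    simpa using this
  have h2 : x.fst * x.snd + x.fst * x.snd = x.snd := by
    have := congrArg TrivSqZeroExt.snd hx
    simpa [mul_comm] using this
  rcases h _ h1 with h0 | h0
  · left
    rw [h0] at h2
    ext
    · exact h0
    · simpa using h2.symm
  · right
    rw [h0] at h2
    ext
    · exact h0
    · simpa using h2

lemma thick_biprod {C : TriCat} {E X Y Z : C.Obj} (hX : Thick E X)
    (hY : Thick E Y) (e : Z ≅ X ⊞ Y) : Thick E Z := by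
  refine Thick.retract (Y := X ⊞ Y) ⟨e.hom, e.inv, e.hom_inv_id⟩ ?_
  exact Thick.ext _ _ _ (binaryBiproductTriangle_distinguished X Y) hX hY

theorem allowed_sq {A : T.Alg} (hA : T.Allowed A) {i : ℕ} (s : T.SqZero i A) : T.Allowed (T.sq i A) := by
  have hring : Nontrivial (T.pi0.obj (T.sq i A)) ∧
      ∀ x : T.pi0.obj (T.sq i A), x * x = x → x = 0 ∨ x = 1 := by
    have hn := hA.nontrivial
    rcases Nat.eq_zero_or_pos i with hi | hi
    · obtain ⟨ψ⟩ := s.pi0_zero hi
      let φ : T.pi0.obj (T.sq i A) ≃+* DualNumber (T.pi0.obj A) := ψ.commRingCatIsoToRingEquiv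
      refine ⟨φ.toEquiv.nontrivial, fun x hx => ?_⟩
      have h1 : φ x * φ x = φ x := by rw [← map_mul, hx]
      rcases idem_dual hA.connected _ h1 with h | h
      · left; exact φ.injective (by rw [h, map_zero])
      · right; exact φ.injective (by rw [h, map_one])
    · obtain ⟨ψ⟩ := s.pi0_pos hi
      let φ := ψ.commRingCatIsoToRingEquiv
      refine ⟨φ.toEquiv.nontrivial, fun x hx => ?_⟩
      have h1 : φ x * φ x = φ x := by rw [← map_mul, hx]
      rcases hA.connected _ h1 with h | h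
      · left; exact φ.injective (by rw [h, map_zero])
      · right; exact φ.injective (by rw [h, map_one])
  refine ⟨hring.1, hring.2, ?_, ?_⟩
  · exact thick_biprod hA.semifinite (hA.semifinite.shift _) s.under
  · obtain ⟨M, hM, ⟨m⟩⟩ := hA.map
    exact ⟨M, hM, ⟨s.aug ≫ m⟩⟩

theorem connective_sq {A : T.Alg} (hA : T.Connective A) {i : ℕ} (s : T.SqZero i A) :
    T.Connective (T.sq i A) := by
  intro j hj f
  rw [← cancel_mono s.under.hom, zero_comp]
  apply biprod.hom_ext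
  · rw [zero_comp]
    exact hA j hj _
  · rw [zero_comp]
    apply hom_to_shift_zero
    exact hA (j - i) (by have : (0 : ℤ) ≤ i := by positivity
                         linarith)

theorem allowed_e (hT : T.Facts) : T.Allowed T.e := by
  have := hT.isLocal
  refine ⟨inferInstance, fun x hx => ?_, Thick.unit, ?_⟩
  · rcases IsLocalRing.isUnit_or_isUnit_one_sub_self x with h | h
    · right
      exact h.mul_left_cancel (by rw [hx, mul_one])
    · left
      apply h.mul_left_cancel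
      rw [mul_zero, sub_mul, one_mul, hx, sub_self]
  · obtain ⟨M, hM⟩ := hT.galois
    obtain ⟨hi⟩ := hT.initial
    exact ⟨M, hM, ⟨hi.to M⟩⟩

/-- There is a smallest degree in which the homology of `THH(A)` is not zero. -/
lemma exists_bottom (hT : T.Facts) {A : T.Alg} (hA : T.Connective A)
    (hp : T.NonUnit A) {D : T.Sp.Obj} (hD : Thick T.S D) (h0 : ¬ IsZero D) :
    ∃ t : ℤ, (∃ f : D⟦t⟧ ⟶ T.compl.obj (T.THH A), f ≠ 0) ∧
      ∀ j : ℤ, j < t → ∀ f : D⟦j⟧ ⟶ T.compl.obj (T.THH A), f = 0 := by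
  obtain ⟨b, hb⟩ := hD.bounded
  have hc := hT.thh_connective A hA
  obtain ⟨j₀, f₀, hf₀⟩ := hT.thh_detects A D hA hp hD h0
  obtain ⟨t, ht, hmin⟩ := Int.exists_least_of_bdd
    (P := fun t => ∃ f : D⟦t⟧ ⟶ T.compl.obj (T.THH A), f ≠ 0)
    ⟨b, fun z hz => by
      by_contra hlt
      obtain ⟨f, hf⟩ := hz
      exact hf (hb 0 _ hc z (by linarith) f)⟩ ⟨j₀, f₀, hf₀⟩
  refine ⟨t, ht, fun j hj f => ?_⟩
  by_contra hf
  exact absurd (hmin j ⟨f, hf⟩) (by linarith)

lemma exists_odd (p : ℕ) (hp : p.Prime) (n : ℤ) : ∃ a : ℕ, n ≤ a ∧ Odd a ∧ ¬ p ∣ a := by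
  refine ⟨2 * p * (n.toNat + 1) + 1, ?_, ⟨p * (n.toNat + 1), by ring⟩, ?_⟩
  · have h1 : n ≤ n.toNat := Int.self_le_toNat n
    have h2 : (1 : ℤ) ≤ p := by exact_mod_cast hp.one_lt.le
    push_cast
    nlinarith [Int.natCast_nonneg n.toNat]
  · intro h
    have h2 : p ∣ 2 * p * (n.toNat + 1) := Dvd.intro (2 * (n.toNat + 1)) (by ring)
    exact hp.one_lt.ne' (Nat.dvd_one.1 ((Nat.dvd_add_right h2).1 h))

end Theory

end Pool.Agent.H92.Redshift
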