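import Pool.Agent.H92.Redshift.Defs

namespace Pool.Agent.H92.Redshift

open CategoryTheory CategoryTheory.Limits CategoryTheory.Pretriangulated

set_option linter.unusedSectionVars false

variable {C : TriCat}

lemma exact₂ {X Y Z : C.Obj} {f : X ⟶ Y} {g : Y ⟶ Z} {h : Z ⟶ X⟦(1 : ℤ)⟧}
    (hT : Triangle.mk f g h ∈ distTriang C.Obj) {W : C.Obj} (u : W ⟶ Y) (hu : u ≫ g = 0) :
    ∃ v : W ⟶ X, v ≫ f = u := by
  obtain ⟨v, hv⟩ := Triangle.coyoneda_exact₂ _ hT u hu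
  exact ⟨v, hv.symm⟩

lemma exact₃ {X Y Z : C.Obj} {f : X ⟶ Y} {g : Y ⟶ Z} {h : Z ⟶ X⟦(1 : ℤ)⟧}
    (hT : Triangle.mk f g h ∈ distTriang C.Obj) {W : C.Obj} (u : W ⟶ Z) (hu : u ≫ h = 0) :
    ∃ v : W ⟶ Y, v ≫ g = u := by
  obtain ⟨v, hv⟩ := Triangle.coyoneda_exact₃ _ hT u hu
  exact ⟨v, hv.symm⟩

lemma exact₁ {X Y Z : C.Obj} {f : X ⟶ Y} {g : Y ⟶ Z} {h : Z ⟶ X⟦(1 : ℤ)⟧}
    (hT : Triangle.mk f g h ∈ distTriang C.Obj) {W : C.Obj} (u : W ⟶ X⟦(1 : ℤ)⟧) (hu : u ≫ f⟦(1 : ℤ)⟧' = 0) :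
    ∃ v : W ⟶ Z, v ≫ h = u := by
  obtain ⟨v, hv⟩ := Triangle.coyoneda_exact₁ _ hT u hu
  exact ⟨v, hv.symm⟩

lemma shift_hom_zero {X Y : C.Obj} (n : ℤ) (h : ∀ g : X ⟶ Y, g = 0) (f : X⟦n⟧ ⟶ Y⟦n⟧) : f = 0 := by
  obtain ⟨g, rfl⟩ := (shiftFunctor C.Obj n).map_surjective f
  rw [h g, Functor.map_zero]

/-- maps `D⟦j⟧ ⟶ X⟦s⟧` are maps `D⟦j - s⟧ ⟶ X` -/
lemma hom_to_shift_zero {D X : C.Obj} (j s : ℤ) (h : ∀ g : D⟦j - s⟧ ⟶ X, g = 0) (f : D⟦j⟧ ⟶ X⟦s⟧) : f = 0 := by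
  have e := (shiftFunctorAdd' C.Obj (j - s) s j (by ring)).app D
  have h2 : e.inv ≫ f = 0 := shift_hom_zero s h _
  rw [← cancel_epi e.inv, h2, comp_zero]

lemma exists_hom_to_shift {D X : C.Obj} (i s : ℤ) (f : D⟦i⟧ ⟶ X) (hf : f ≠ 0) :
    ∃ g : D⟦i + s⟧ ⟶ X⟦s⟧, g ≠ 0 := by
  have e := (shiftFunctorAdd' C.Obj i s (i + s) rfl).app D
  refine ⟨e.hom ≫ f⟦s⟧', fun h => hf ?_⟩
  have h1 : f⟦s⟧' = 0 := by
    rw [← cancel_epi e.hom, comp_zero]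
    exact h
  apply (shiftFunctor C.Obj s).map_injective
  rw [h1, Functor.map_zero]

/-- Finite spectra are bounded below. -/
lemma Thick.bounded {S D : C.Obj} (hD : Thick S D) :
    ∃ b : ℤ, ∀ (c : ℤ) (X : C.Obj), Conn S c X → ∀ j : ℤ, j < c + b → ∀ f : D⟦j⟧ ⟶ X, f = 0 := by
  induction hD with
  | unit => exact ⟨0, fun c X hX j hj f => hX j (by linarith) f⟩
  | @shift X' i _ ih =>
    obtain ⟨b, hb⟩ := ih
    refine ⟨b - i, fun c X hX j hj f => ?_⟩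
    have e := (shiftFunctorAdd' C.Obj i j (i + j) rfl).app X'
    have h2 : e.hom ≫ f = 0 := hb c X hX (i + j) (by linarith) _
    rw [← cancel_epi e.hom, h2, comp_zero]
  | @ext X' Y' Z' f' g' h' hT _ _ ih₁ ih₂ =>
    obtain ⟨b₁, hb₁⟩ := ih₁
    obtain ⟨b₂, hb₂⟩ := ih₂
    refine ⟨min b₁ b₂, fun c X hX j hj f => ?_⟩
    have hT' := Triangle.shift_distinguished _ hT j
    obtain ⟨g, hg⟩ := Triangle.yoneda_exact₂ _ hT' f
      (hb₁ c X hX j (lt_of_lt_of_le hj (by gcongr; exact min_le_left _ _)) _)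
    rw [hg]
    have : g = 0 := hb₂ c X hX j (lt_of_lt_of_le hj (by gcongr; exact min_le_right _ _)) g
    rw [this, comp_zero]
    rfl
  | @retract X' Y' r _ ih =>
    obtain ⟨b, hb⟩ := ih
    refine ⟨b, fun c X hX j hj f => ?_⟩
    have h1 : r.r⟦j⟧' ≫ f = 0 := hb c X hX j hj _
    have h2 : r.i⟦j⟧' ≫ r.r⟦j⟧' = 𝟙 _ := by
      rw [← Functor.map_comp, r.retract, CategoryTheory.Functor.map_id]
    calc f = (r.i⟦j⟧' ≫ r.r⟦j⟧') ≫ f := by rw [h2, Category.id_comp]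
      _ = 0 := by rw [Category.assoc, h1, comp_zero]

/-- Maps from torsion objects to objects on which `p` is invertible vanish. -/
lemma hom_zero_of_torsion {D Y : C.Obj} {p N : ℕ} (hD : p ^ N • 𝟙 D = 0) [IsIso (p • 𝟙 Y)] (j : ℤ)
    (f : D⟦j⟧ ⟶ Y) : f = 0 := by
  have h1 : (p ^ N • 𝟙 (D⟦j⟧) : D⟦j⟧ ⟶ D⟦j⟧) = 0 := by
    have := congrArg (fun φ => φ⟦j⟧') hD
    simpa using this
  have h2 : p ^ N • f = 0 := by
    have : p ^ N • f = (p ^ N • 𝟙 (D⟦j⟧)) ≫ f := by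
      rw [Preadditive.nsmul_comp, Category.id_comp]
    rw [this, h1, zero_comp]
  have key : ∀ g : D⟦j⟧ ⟶ Y, p • g = 0 → g = 0 := by
    intro g hg
    rw [← cancel_mono (p • 𝟙 Y), zero_comp, Preadditive.comp_nsmul, Category.comp_id, hg]
  clear h1 hD
  induction N with
  | zero => simpa using h2
  | succ N ih =>
    apply ih
    apply key
    rw [← mul_nsmul, ← pow_succ]
    exact h2

lemma exists_lift_completion {D X X' Y : C.Obj} {t : X ⟶ X'} {g : X' ⟶ Y} {h : Y ⟶ X⟦(1 : ℤ)⟧}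
    (hT : Triangle.mk t g h ∈ distTriang C.Obj) {p N : ℕ} (hD : p ^ N • 𝟙 D = 0) [IsIso (p • 𝟙 Y)] (j : ℤ)
    (f : D⟦j⟧ ⟶ X') : ∃ f' : D⟦j⟧ ⟶ X, f = f' ≫ t :=
  Triangle.coyoneda_exact₂ _ hT f (hom_zero_of_torsion (Y := Y) hD j (f ≫ g))

/-- Finite spectra are bounded above. -/
lemma Thick.bounded_above {S D : C.Obj} (hD : Thick S D) :
    ∃ b : ℤ, ∀ (c : ℤ) (X : C.Obj), (∀ j : ℤ, c ≤ j → ∀ f : S⟦j⟧ ⟶ X, f = 0) →
      ∀ j : ℤ, c + b ≤ j → ∀ f : D⟦j⟧ ⟶ X, f = 0 := by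
  induction hD with
  | unit => exact ⟨0, fun c X hX j hj f => hX j (by linarith) f⟩
  | @shift X' i _ ih =>
    obtain ⟨b, hb⟩ := ih
    refine ⟨b - i, fun c X hX j hj f => ?_⟩
    have e := (shiftFunctorAdd' C.Obj i j (i + j) rfl).app X'
    have h2 : e.hom ≫ f = 0 := hb c X hX (i + j) (by linarith) _
    rw [← cancel_epi e.hom, h2, comp_zero]
  | @ext X' Y' Z' f' g' h' hT _ _ ih₁ ih₂ =>
    obtain ⟨b₁, hb₁⟩ := ih₁
    obtain ⟨b₂, hb₂⟩ := ih₂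
    refine ⟨max b₁ b₂, fun c X hX j hj f => ?_⟩
    have hT' := Triangle.shift_distinguished _ hT j
    obtain ⟨g, hg⟩ := Triangle.yoneda_exact₂ _ hT' f
      (hb₁ c X hX j (le_trans (by gcongr; exact le_max_left _ _) hj) _)
    rw [hg]
    have : g = 0 := hb₂ c X hX j (le_trans (by gcongr; exact le_max_right _ _) hj) g
    rw [this, comp_zero]
    rfl
  | @retract X' Y' r _ ih =>
    obtain ⟨b, hb⟩ := ih
    refine ⟨b, fun c X hX j hj f => ?_⟩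
    have h1 : r.r⟦j⟧' ≫ f = 0 := hb c X hX j hj _
    have h2 : r.i⟦j⟧' ≫ r.r⟦j⟧' = 𝟙 _ := by
      rw [← Functor.map_comp, r.retract, CategoryTheory.Functor.map_id]
    calc f = (r.i⟦j⟧' ≫ r.r⟦j⟧') ≫ f := by rw [h2, Category.id_comp]
      _ = 0 := by rw [Category.assoc, h1, comp_zero]

/-- A map whose cofibre has no maps from `D⟦j⟧` and `D⟦j + 1⟧` is an isomorphism on the maps from `D⟦j⟧`. -/
lemma bijective_of_cofibre {D X X' Y : C.Obj} {t : X ⟶ X'} {g : X' ⟶ Y} {h : Y ⟶ X⟦(1 : ℤ)⟧}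
    (hT : Triangle.mk t g h ∈ distTriang C.Obj) (j : ℤ) (h0 : ∀ f : D⟦j⟧ ⟶ Y, f = 0)
    (h1 : ∀ f : D⟦j + 1⟧ ⟶ Y, f = 0) : Function.Bijective (fun f : D⟦j⟧ ⟶ X => f ≫ t) := by
  constructor
  · have key : ∀ f : D⟦j⟧ ⟶ X, f ≫ t = 0 → f = 0 := by
      intro f hf
      have h2 : f⟦(1 : ℤ)⟧' ≫ t⟦(1 : ℤ)⟧' = 0 := by
        rw [← Functor.map_comp, hf, Functor.map_zero]
      obtain ⟨z, hz⟩ := exact₁ hT (f⟦(1 : ℤ)⟧') h2
      have e := (shiftFunctorAdd' C.Obj j 1 (j + 1) rfl).app D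
      have h3 : z = 0 := by
        have h4 : e.hom ≫ z = 0 := h1 _
        rw [← cancel_epi e.hom, h4, comp_zero]
      apply (shiftFunctor C.Obj (1 : ℤ)).map_injective
      rw [← hz, h3, Functor.map_zero, zero_comp]
    intro f f' hff
    have := key (f - f') (by
      rw [Preadditive.sub_comp, sub_eq_zero]
      exact hff)
    exact sub_eq_zero.1 this
  · intro f
    exact exact₂ hT f (h0 _)

/-- If `t : X ⟶ X'` is an isomorphism on `π_j` for large `j`, it is an isomorphism on the maps from `D⟦j⟧` for large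
`j`, for all finite `D`. -/
lemma Thick.bijective {S D X X' : C.Obj} (hD : Thick S D) (t : X ⟶ X') (J : ℤ)
    (h : ∀ j : ℤ, J ≤ j → Function.Bijective (fun f : S⟦j⟧ ⟶ X => f ≫ t)) :
    ∃ J' : ℤ, ∀ j : ℤ, J' ≤ j → Function.Bijective (fun f : D⟦j⟧ ⟶ X => f ≫ t) := by
  obtain ⟨Y, g, δ, hT⟩ := Pretriangulated.distinguished_cocone_triangle t
  have hY : ∀ j : ℤ, J + 1 ≤ j → ∀ f : S⟦j⟧ ⟶ Y, f = 0 := by
    intro j hj f
    have h1 : f ≫ δ = 0 := by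
      have e := (shiftFunctorAdd' C.Obj (j - 1) 1 j (by ring)).app S
      obtain ⟨x, hx⟩ := (shiftFunctor C.Obj (1 : ℤ)).map_surjective (e.inv ≫ f ≫ δ)
      have h2 : x ≫ t = 0 := by
        apply (shiftFunctor C.Obj (1 : ℤ)).map_injective
        have h5 : δ ≫ t⟦(1 : ℤ)⟧' = 0 := comp_distTriang_mor_zero₃₁ _ hT
        rw [Functor.map_comp, Functor.map_zero, hx, Category.assoc, Category.assoc, h5, comp_zero,
          comp_zero]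
      have h3 : x = 0 := (h (j - 1) (by linarith)).1 (by simpa using h2)
      rw [h3, Functor.map_zero] at hx
      rw [← cancel_epi e.inv, ← hx, comp_zero]
    obtain ⟨y, rfl⟩ := exact₃ hT f h1
    obtain ⟨x, rfl⟩ := (h j (by linarith)).2 y
    have h6 : t ≫ g = 0 := comp_distTriang_mor_zero₁₂ _ hT
    simp only [Category.assoc, h6, comp_zero]
  obtain ⟨b, hb⟩ := hD.bounded_above
  refine ⟨J + 1 + b, fun j hj => bijective_of_cofibre hT j ?_ ?_⟩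
  · exact hb _ _ hY j hj
  · exact hb _ _ hY (j + 1) (by linarith)

end Pool.Agent.H92.Redshift
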