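import Pool.Agent.H92.Redshift.Lemmas

namespace Pool.Agent.H92.Redshift

open CategoryTheory CategoryTheory.Limits CategoryTheory.Pretriangulated

set_option linter.unusedSectionVars false

namespace Theory

variable {T : Theory}

section family

variable {i : ℕ} {A : T.Alg} (Z : T.Weights i A) {W : T.Sp.Obj}

open Classical in
/-- the family of the lifts -/
noncomputable def family (a₀ : Idx T.p) (x₀ : W ⟶ Z.N a₀ 0) (a : Idx T.p) : ∀ k : ℕ, W ⟶ Z.N a k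
  | 0 => Function.update (fun a => (0 : W ⟶ Z.N a 0)) a₀ x₀ a
  | k + 1 => if h : family a₀ x₀ a k ≠ 0 ∧ ∃ z : W ⟶ Z.N a (k + 1),
      z ≫ Z.can a (k + 1) = family a₀ x₀ a k ≫ Z.frob a k then h.2.choose else 0

lemma family_zero_self (a₀ : Idx T.p) (x₀ : W ⟶ Z.N a₀ 0) : family Z a₀ x₀ a₀ 0 = x₀ := by
  simp [family]

lemma family_ne (a₀ : Idx T.p) (x₀ : W ⟶ Z.N a₀ 0) (a : Idx T.p) (ha : a ≠ a₀) (k : ℕ) :
    family Z a₀ x₀ a k = 0 := by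
  induction k with
  | zero => simp [family, Function.update_of_ne ha]
  | succ k ih => rw [family, dif_neg]; simp [ih]

lemma family_comp (hZ : T.WeightFacts Z) (a₀ : Idx T.p) (x₀ : W ⟶ Z.N a₀ 0)
    (h : ∀ (k : ℕ) (z : W ⟶ (Z.O a₀ (k + 1))⟦(1 : ℤ)⟧), z = 0) (a : Idx T.p) (k : ℕ) :
    family Z a₀ x₀ a (k + 1) ≫ Z.can a (k + 1) = family Z a₀ x₀ a k ≫ Z.frob a k := by
  by_cases h0 : family Z a₀ x₀ a k = 0
  · rw [family, dif_neg (by simp [h0]), h0, zero_comp, zero_comp]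
  · have ha : a = a₀ := by
      by_contra ha
      exact h0 (family_ne Z a₀ x₀ a ha k)
    subst ha
    have hex : ∃ z : W ⟶ Z.N a (k + 1), z ≫ Z.can a (k + 1) = family Z a x₀ a k ≫ Z.frob a k := by
      exact exact₃ (hZ.triangle a (k + 1)) _ (h k _)
    rw [family, dif_pos ⟨h0, hex⟩]
    exact hex.choose_spec

lemma exists_lift_R (hZ : T.WeightFacts Z) {aug : T.sq i A ⟶ A} (Q : T.RelTC aug Z) (a₀ : Idx T.p)
    (x₀ : W ⟶ Z.N a₀ 0) (h : ∀ (k : ℕ) (z : W ⟶ (Z.O a₀ (k + 1))⟦(1 : ℤ)⟧), z = 0) :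
    ∃ r : W ⟶ Q.R, r ≫ Q.q ≫ Z.πN a₀ 0 = x₀ := by
  let x : W ⟶ Z.prodN := Pi.lift fun m => family Z a₀ x₀ m.1 m.2
  have hxπ : ∀ a k, x ≫ Z.πN a k = family Z a₀ x₀ a k := fun a k =>
    Pi.lift_π (f := fun m : Idx T.p × ℕ => Z.N m.1 m.2) _ (a, k)
  have hx : x ≫ Q.diff = 0 := by
    apply Pi.hom_ext
    rintro ⟨a, k⟩
    cases k with
    | zero => exact (hZ.tate a).eq_of_tgt _ _
    | succ k =>
      have h1 : (x ≫ Q.diff) ≫ Z.πP a (k + 1) = 0 := by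
        rw [Category.assoc, Q.isDiff, Preadditive.comp_sub, sub_eq_zero, ← Category.assoc,
          ← Category.assoc, hxπ, hxπ]
        exact (family_comp Z hZ a₀ x₀ h a k).symm
      exact h1.trans (zero_comp (f := Pi.π (fun m : Idx T.p × ℕ => Z.P m.1 m.2) (a, k + 1))).symm
  obtain ⟨r, hr⟩ := exact₂ Q.tcTriangle x hx
  refine ⟨r, ?_⟩
  rw [← Category.assoc, hr, hxπ]
  exact family_zero_self Z a₀ x₀

end family

/-- **The relative term is not periodic.** -/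
theorem not_surjective (hT : T.Facts) {i : ℕ} {A : T.Alg} (s : T.SqZero i A) (V : T.Weights i A)
    (hV : T.WeightFacts V) (Z : T.RelTC s.aug V)
    {D : T.Sp.Obj} {b : ℤ} (hb : ∀ (c : ℤ) (X : T.Sp.Obj), Conn T.S c X → ∀ j : ℤ, j < c + b → ∀ f : D⟦j⟧ ⟶ X, f = 0)
    {N : ℕ} (hD : T.p ^ N • 𝟙 D = 0) {t : ℤ} (f₀ : D⟦t⟧ ⟶ T.compl.obj (T.THH A)) (hf₀ : f₀ ≠ 0)
    (ht : ∀ j : ℤ, j < t → ∀ f : D⟦j⟧ ⟶ T.compl.obj (T.THH A), f = 0)
    {d : ℤ} (hd : 0 < d) (w : D⟦d⟧ ⟶ D) (a : Idx T.p) (hodd : Odd a.1) (ha : t - b ≤ a.1) :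
    ¬ Function.Surjective (mulV w (t + a.1 * (i + 1)) (T.K.obj (T.sq i A))) := by
  intro hsurj
  obtain ⟨e⟩ := hV.first a hodd
  set j : ℤ := t + a.1 * (i + 1) with hj
  obtain ⟨g₀, hg₀⟩ := exists_hom_to_shift t ((a.1 : ℤ) * (i + 1)) f₀ hf₀
  set x₀ : D⟦j⟧ ⟶ V.N a 0 := g₀ ≫ e.inv with hx₀
  have hx₀0 : x₀ ≠ 0 := by
    intro h
    apply hg₀
    rw [← cancel_mono e.inv, zero_comp]
    exact h
  -- lifts exist
  have hp : (2 : ℤ) ≤ T.p := by exact_mod_cast hT.prime.two_le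
  have hlift : ∀ (k : ℕ) (z : D⟦j⟧ ⟶ (V.O a (k + 1))⟦(1 : ℤ)⟧), z = 0 := by
    intro k z
    apply hom_to_shift_zero
    intro g
    apply hb _ _ (hV.conn a (k + 1))
    have h1 : (2 : ℤ) ≤ (T.p : ℤ) ^ (k + 1) := by
      calc (2 : ℤ) ≤ T.p := hp
        _ = (T.p : ℤ) ^ 1 := (pow_one _).symm
        _ ≤ (T.p : ℤ) ^ (k + 1) := by
          apply pow_le_pow_right₀ (by linarith)
          omega
    have ha0 : (0 : ℤ) < a.1 := by exact_mod_cast a.2.1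
    have h2 : (a.1 : ℤ) * 2 * (i + 1) ≤ (a.1 : ℤ) * (T.p : ℤ) ^ (k + 1) * (i + 1) := by
      gcongr
    have h3 : (a.1 : ℤ) * 1 ≤ (a.1 : ℤ) * (i + 1) := by
      gcongr
      have : (0 : ℤ) ≤ i := by positivity
      linarith
    rw [hj]
    nlinarith
  obtain ⟨r, hr⟩ := exists_lift_R V hV Z a x₀ hlift
  -- the maps in the degree `j - d` vanish
  have hzero : ∀ g : D⟦j - d⟧ ⟶ V.N a 0, g = 0 := by
    intro g
    rw [← cancel_mono e.hom, zero_comp]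
    apply hom_to_shift_zero
    intro g'
    apply ht
    rw [hj]
    linarith
  -- `r ≫ toK` is in the image
  obtain ⟨Y, g, h, hTr, hIso⟩ := hT.completion (T.K.obj (T.sq i A))
  obtain ⟨f', hf'⟩ := exists_lift_completion hTr hD j (r ≫ Z.toK)
  obtain ⟨u, hu⟩ := hsurj f'
  set u' : D⟦j - d⟧ ⟶ T.compl.obj (T.K.obj (T.sq i A)) := u ≫ T.toCompl.app _ with hu'
  have hf : r ≫ Z.toK = act w j ≫ u' := by
    rw [hf', ← hu]
    simp [mulV, hu']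
  -- the splitting
  set ρ : T.compl.obj (T.K.obj (T.sq i A)) ⟶ T.compl.obj (T.K.obj A) := T.compl.map (T.K.map s.aug) with hρ
  set σ : T.compl.obj (T.K.obj A) ⟶ T.compl.obj (T.K.obj (T.sq i A)) := T.compl.map (T.K.map s.inc) with hσ
  have hσρ : σ ≫ ρ = 𝟙 _ := by
    rw [hσ, hρ, ← Functor.map_comp, ← Functor.map_comp, s.inc_aug, CategoryTheory.Functor.map_id,
      CategoryTheory.Functor.map_id]
  have hρbd : ρ ≫ Z.bdK = 0 := comp_distTriang_mor_zero₂₃ _ Z.kTriangle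
  have hbd : Z.bdK = 0 := by
    calc Z.bdK = (σ ≫ ρ) ≫ Z.bdK := by rw [hσρ, Category.id_comp]
      _ = 0 := by rw [Category.assoc, hρbd, comp_zero]
  have hmono : Mono Z.toK := Triangle.mono₁ _ Z.kTriangle hbd
  have htoKρ : Z.toK ≫ ρ = 0 := comp_distTriang_mor_zero₁₂ _ Z.kTriangle
  have h1 : (u' - (u' ≫ ρ) ≫ σ) ≫ ρ = 0 := by
    rw [Preadditive.sub_comp, Category.assoc (u' ≫ ρ), hσρ, Category.comp_id, sub_self]
  obtain ⟨z, hz'⟩ := exact₂ Z.kTriangle (u' - (u' ≫ ρ) ≫ σ) h1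
  have h2 : act w j ≫ u' ≫ ρ = 0 := by
    rw [← Category.assoc, ← hf, Category.assoc, htoKρ, comp_zero]
  have h3 : r = act w j ≫ z := by
    rw [← cancel_mono Z.toK, Category.assoc, hz', Preadditive.comp_sub, ← hf]
    rw [← Category.assoc, h2, zero_comp, sub_zero]
  apply hx₀0
  rw [← hr, h3, Category.assoc]
  rw [hzero (z ≫ Z.q ≫ V.πN a 0), comp_zero]

end Theory

end Pool.Agent.H92.Redshift
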